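import Pool.Agent.Helper44.GN.Defs

open Finset MeasureTheory Filter Topology Matrix
open scoped ENNReal ContDiff

namespace Pool.Agent.Helper44.GN

theorem fub_mem {k : ℕ} {δ : ℝ} (x : Fin (k + 1)) (s : ℝ) (y : Fin k → ℝ) :
    (x.insertNth s y : Fin (k + 1) → ℝ) ∈ Bx (k + 1) δ ↔ s ∈ Set.Icc δ 1 ∧ y ∈ Bx k δ := by
  simp only [Bx, Set.mem_pi, Set.mem_univ, true_implies]
  constructor
  · intro h
    refine ⟨by simpa using h x, fun i => ?_⟩
    simpa using h (x.succAbove i)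
  · rintro ⟨h1, h2⟩ i
    rcases Fin.eq_self_or_eq_succAbove x i with rfl | ⟨j, rfl⟩
    · simpa using h1
    · simpa using h2 j

theorem fub_compact (n : ℕ) (δ : ℝ) : IsCompact (Bx n δ) :=
  isCompact_univ_pi fun _ => isCompact_Icc

theorem fub_int {k : ℕ} {δ : ℝ} {Φ : (Fin (k + 1) → ℝ) → ℝ}
    (hΦ : ContinuousOn Φ (Bx (k + 1) δ)) (x : Fin (k + 1)) :
    Integrable (fun p : ℝ × (Fin k → ℝ) =>
      (Bx (k + 1) δ).indicator Φ (x.insertNth p.1 p.2 : Fin (k + 1) → ℝ)) := by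
  have hmp := (volume_preserving_piFinSuccAbove (fun _ : Fin (k + 1) => ℝ) x).symm
  have h1 : Integrable ((Bx (k + 1) δ).indicator Φ) := by
    rw [integrable_indicator_iff (fub_compact _ _).measurableSet]
    exact hΦ.integrableOn_compact (fub_compact _ _)
  exact (hmp.integrable_comp_emb (MeasurableEquiv.measurableEmbedding _)).2 h1

theorem fub_eq {k : ℕ} {δ : ℝ} {Φ : (Fin (k + 1) → ℝ) → ℝ}
    (hΦ : ContinuousOn Φ (Bx (k + 1) δ)) (x : Fin (k + 1)) :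
    ∫ z in Bx (k + 1) δ, Φ z = ∫ y : Fin k → ℝ, ∫ s : ℝ,
      (Bx (k + 1) δ).indicator Φ (x.insertNth s y : Fin (k + 1) → ℝ) := by
  have hmp := (volume_preserving_piFinSuccAbove (fun _ : Fin (k + 1) => ℝ) x).symm
  rw [← integral_indicator (fub_compact _ _).measurableSet, ← hmp.integral_comp']
  rw [Measure.volume_eq_prod, integral_prod_symm]
  · rfl
  · exact fub_int hΦ x

theorem fub_inner {k : ℕ} {δ : ℝ} (hδ1 : δ < 1) (Φ : (Fin (k + 1) → ℝ) → ℝ) (x : Fin (k + 1))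
    (y : Fin k → ℝ) (hy : y ∈ Bx k δ) :
    ∫ s : ℝ, (Bx (k + 1) δ).indicator Φ (x.insertNth s y : Fin (k + 1) → ℝ) =
      ∫ s in δ..1, Φ (Function.update (x.insertNth (1 : ℝ) y : Fin (k + 1) → ℝ) x s) := by
  rw [intervalIntegral.integral_of_le hδ1.le, ← integral_Icc_eq_integral_Ioc,
    ← integral_indicator measurableSet_Icc]
  congr 1
  funext s
  by_cases hs : s ∈ Set.Icc δ 1
  · rw [Set.indicator_of_mem ((fub_mem x s y).2 ⟨hs, hy⟩), Set.indicator_of_mem hs]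
    congr 1
    funext i
    rcases Fin.eq_self_or_eq_succAbove x i with rfl | ⟨j, rfl⟩
    · simp
    · rw [Function.update_of_ne (Fin.succAbove_ne x j)]
      simp
  · rw [Set.indicator_of_notMem (fun h => hs ((fub_mem x s y).1 h).1),
      Set.indicator_of_notMem hs]

theorem st_FUB : ST_FUB := by
  intro n δ x Φ Ψ hδ hδ1 hΦ hΨ h
  obtain ⟨k, rfl⟩ : ∃ k, n = k + 1 := ⟨n - 1, by have := x.2; omega⟩
  rw [fub_eq hΦ x, fub_eq hΨ x]
  refine integral_mono (fub_int hΦ x).integral_prod_right (fub_int hΨ x).integral_prod_right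
    fun y => ?_
  by_cases hy : y ∈ Bx k δ
  · show ∫ s : ℝ, (Bx (k + 1) δ).indicator Φ (x.insertNth s y : Fin (k + 1) → ℝ) ≤
      ∫ s : ℝ, (Bx (k + 1) δ).indicator Ψ (x.insertNth s y : Fin (k + 1) → ℝ)
    rw [fub_inner hδ1 Φ x y hy, fub_inner hδ1 Ψ x y hy]
    exact h _ ((fub_mem x 1 y).2 ⟨⟨hδ1.le, le_rfl⟩, hy⟩)
  · have h0 : ∀ (Θ : (Fin (k + 1) → ℝ) → ℝ) (s : ℝ),
        (Bx (k + 1) δ).indicator Θ (x.insertNth s y : Fin (k + 1) → ℝ) = 0 := fun Θ s =>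
      Set.indicator_of_notMem (fun h => hy ((fub_mem x s y).1 h).2) _
    simp only [h0]
    exact le_rfl

end Pool.Agent.Helper44.GN
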